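import Mathlib
import Pool.Agent.H.MP_5c9c6a_an.A

namespace Pool.Agent.Results.MP_5c9c6a_an.No
open Pool.Agent.H.MP_5c9c6a_an

theorem result : ∃ (f : EuclideanSpace ℝ (Fin 2) → ℝ) (c : ℝ), Hyp f c ∧
    ∃ x y, x ≠ y ∧ x ∈ HessPos f ∩ {z | f z ≤ c} ∧
      y ∈ connectedComponentIn (HessPos f ∩ {z | f z ≤ c}) x ∧ gradient f x = gradient f y :=
  ⟨ff, main⟩

end Pool.Agent.Results.MP_5c9c6a_an.No
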